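import Pool.Agent.helper52.FS.SpecP

/-!
# MP_07c750, project FS, row HMW (helper23)

The harmonic majorant of an interval.
-/

open MeasureTheory Set

set_option autoImplicit false

namespace Pool.Agent.FS

noncomputable section

theorem HMW_im (s : ℝ) (z : ℂ) : (1 / ((s : ℂ) - z)).im = z.im / ((s - z.re) ^ 2 + z.im ^ 2) := by
  rw [one_div, Complex.inv_im, Complex.normSq_apply]
  simp only [Complex.sub_im, Complex.ofReal_im, Complex.sub_re, Complex.ofReal_re, zero_sub, neg_neg]
  congr 1; ring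

theorem HMW_ne (s : ℝ) (z : ℂ) (hz : 0 < z.im) : (s : ℂ) - z ≠ 0 := by
  intro h
  have h1 := congrArg Complex.im h
  simp only [Complex.sub_im, Complex.ofReal_im, zero_sub, Complex.zero_im, neg_eq_zero] at h1
  linarith

theorem HMW_cont (z : ℂ) (hz : 0 < z.im) : Continuous (fun s : ℝ => 1 / ((s : ℂ) - z)) := by
  refine Continuous.div continuous_const (by fun_prop) fun s => HMW_ne s z hz

theorem HMW_log (l r : ℝ) (hlr : l ≤ r) (z : ℂ) (hz : 0 < z.im) :
    ∫ s in Icc l r, 1 / ((s : ℂ) - z) = Complex.log ((r : ℂ) - z) - Complex.log ((l : ℂ) - z) := by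
  rw [integral_Icc_eq_integral_Ioc, ← intervalIntegral.integral_of_le hlr]
  have hd : ∀ s ∈ Set.uIcc l r, HasDerivAt (fun s : ℝ => Complex.log ((s : ℂ) - z)) (1 / ((s : ℂ) - z)) s := by
    intro s _
    have h1 : HasDerivAt (fun s : ℝ => (s : ℂ) - z) 1 s := (Complex.ofRealCLM.hasDerivAt (x := s)).sub_const z
    have h2 : (s : ℂ) - z ∈ Complex.slitPlane := by
      rw [Complex.mem_slitPlane_iff]
      right
      simp only [Complex.sub_im, Complex.ofReal_im, zero_sub, ne_eq, neg_eq_zero]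
      exact hz.ne'
    exact h1.clog_real h2
  exact intervalIntegral.integral_eq_sub_of_hasDerivAt hd ((HMW_cont z hz).intervalIntegrable l r)

theorem HMW_re (l r : ℝ) (z : ℂ) (hz : 0 < z.im) :
    (WW l r z).re = 1 / Real.pi * ∫ s in Icc l r, z.im / ((s - z.re) ^ 2 + z.im ^ 2) := by
  have hi : IntegrableOn (fun s : ℝ => 1 / ((s : ℂ) - z)) (Icc l r) := (HMW_cont z hz).integrableOn_Icc
  have h1 : (∫ s in Icc l r, 1 / ((s : ℂ) - z)).im = ∫ s in Icc l r, z.im / ((s - z.re) ^ 2 + z.im ^ 2) := by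
    have h2 := Complex.imCLM.integral_comp_comm hi
    have h3 : ∀ s : ℝ, Complex.imCLM (1 / ((s : ℂ) - z)) = z.im / ((s - z.re) ^ 2 + z.im ^ 2) := fun s => HMW_im s z
    simp only [h3] at h2
    exact h2.symm
  unfold WW
  rw [← h1]
  generalize (∫ s in Icc l r, 1 / ((s : ℂ) - z)) = w
  have h4 : -(Complex.I / (Real.pi : ℂ)) * w = (((1 / Real.pi : ℝ)) : ℂ) * (-(Complex.I * w)) := by
    push_cast; ring
  rw [h4, Complex.re_ofReal_mul]
  simp

theorem HMW_q (y a : ℝ) (hy : 0 < y) : 0 ≤ y / (a ^ 2 + y ^ 2) := by positivity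

theorem HMW_qc (y x : ℝ) (hy : 0 < y) : Continuous (fun s : ℝ => y / ((s - x) ^ 2 + y ^ 2)) := by
  refine Continuous.div continuous_const (by fun_prop) fun s => ?_
  positivity

theorem HMW_up (l r : ℝ) (hlr : l ≤ r) (z : ℂ) (hz : 0 < z.im) (c : ℝ) (h : ∀ s ∈ Icc l r, z.im / ((s - z.re) ^ 2 + z.im ^ 2) ≤ c) :
    (WW l r z).re ≤ 1 / Real.pi * ((r - l) * c) := by
  rw [HMW_re l r z hz]
  refine mul_le_mul_of_nonneg_left ?_ (by positivity)
  have h1 : ∫ s in Icc l r, z.im / ((s - z.re) ^ 2 + z.im ^ 2) ≤ ∫ _s in Icc l r, c :=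
    setIntegral_mono_on (HMW_qc z.im z.re hz).integrableOn_Icc (by simp) measurableSet_Icc h
  refine h1.trans (le_of_eq ?_)
  rw [setIntegral_const, Real.volume_real_Icc_of_le hlr, smul_eq_mul]

theorem HMW_lo (l r : ℝ) (hlr : l ≤ r) (z : ℂ) (hz : 0 < z.im) (c : ℝ) (h : ∀ s ∈ Icc l r, c ≤ z.im / ((s - z.re) ^ 2 + z.im ^ 2)) :
    1 / Real.pi * ((r - l) * c) ≤ (WW l r z).re := by
  rw [HMW_re l r z hz]
  refine mul_le_mul_of_nonneg_left ?_ (by positivity)
  have h1 : ∫ _s in Icc l r, c ≤ ∫ s in Icc l r, z.im / ((s - z.re) ^ 2 + z.im ^ 2) :=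
    setIntegral_mono_on (by simp) (HMW_qc z.im z.re hz).integrableOn_Icc measurableSet_Icc h
  refine le_trans (le_of_eq ?_) h1
  rw [setIntegral_const, Real.volume_real_Icc_of_le hlr, smul_eq_mul]

theorem HMW_arg (a : ℝ) (z : ℂ) (hz : 0 < z.im) : -Real.pi < Complex.arg ((a : ℂ) - z) ∧ Complex.arg ((a : ℂ) - z) < 0 := by
  refine ⟨Complex.neg_pi_lt_arg _, ?_⟩
  rw [Complex.arg_neg_iff]
  simp only [Complex.sub_im, Complex.ofReal_im, zero_sub]
  linarith

theorem HMW_proof : HMW_stmt := by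
  intro l r hlr
  refine ⟨fun z hz => ⟨?_, ?_, ?_, ?_, ?_⟩, ?_⟩
  · have hev : WW l r =ᶠ[nhds z] fun w => -(Complex.I / Real.pi) * (Complex.log ((r : ℂ) - w) - Complex.log ((l : ℂ) - w)) := by
      have hopen : IsOpen {w : ℂ | 0 < w.im} := isOpen_lt continuous_const Complex.continuous_im
      filter_upwards [hopen.mem_nhds hz] with w hw
      unfold WW
      rw [HMW_log l r hlr w hw]
    refine DifferentiableAt.congr_of_eventuallyEq ?_ hev
    have hs : ∀ a : ℝ, (a : ℂ) - z ∈ Complex.slitPlane := by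
      intro a
      rw [Complex.mem_slitPlane_iff]
      right
      simp only [Complex.sub_im, Complex.ofReal_im, zero_sub, ne_eq, neg_eq_zero]
      exact hz.ne'
    have hd : ∀ a : ℝ, DifferentiableAt ℂ (fun w : ℂ => Complex.log ((a : ℂ) - w)) z := fun a =>
      DifferentiableAt.clog (by fun_prop) (hs a)
    exact ((hd r).sub (hd l)).const_mul _
  · rw [HMW_re l r z hz]
    exact mul_nonneg (by positivity) (integral_nonneg fun s => HMW_q _ _ hz)
  · have h1 : (WW l r z).re = 1 / Real.pi * (Complex.arg ((r : ℂ) - z) - Complex.arg ((l : ℂ) - z)) := by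
      unfold WW
      rw [HMW_log l r hlr z hz]
      have h4 : ∀ w : ℂ, -(Complex.I / (Real.pi : ℂ)) * w = (((1 / Real.pi : ℝ)) : ℂ) * (-(Complex.I * w)) := by
        intro w; push_cast; ring
      rw [h4, Complex.re_ofReal_mul]
      simp [Complex.log_im]
    rw [h1]
    have h2 := HMW_arg r z hz
    have h3 := HMW_arg l z hz
    have hpi := Real.pi_pos
    rw [one_div, inv_mul_le_iff₀ hpi]
    linarith
  · refine (HMW_up l r hlr z hz (1 / z.im) ?_).trans (le_of_eq ?_)
    · intro s _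
      rw [div_le_div_iff₀ (by positivity) hz]
      nlinarith [sq_nonneg (s - z.re)]
    · have hpi := Real.pi_pos
      field_simp
  · intro d hd hz2
    refine (HMW_up l r hlr z hz (z.im / d ^ 2) ?_).trans (le_of_eq ?_)
    · intro s hs
      refine div_le_div_of_nonneg_left hz.le (by positivity) ?_
      have h5 : d ^ 2 ≤ (s - z.re) ^ 2 := by
        rcases hz2 with h6 | h6
        · exact pow_le_pow_left₀ hd.le (by linarith [hs.1]) 2
        · have h7 : (s - z.re) ^ 2 = (z.re - s) ^ 2 := by ring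
          rw [h7]
          exact pow_le_pow_left₀ hd.le (by linarith [hs.2]) 2
      nlinarith [sq_nonneg z.im]
    · have hpi := Real.pi_pos
      field_simp
  · intro hl
    have hi : (0 : ℝ) < Complex.I.im := by simp
    refine le_trans (le_of_eq ?_) (HMW_lo l r hlr Complex.I hi (1 / (1 + r ^ 2)) ?_)
    · have hpi := Real.pi_pos
      have h1 : (0 : ℝ) < 1 + r ^ 2 := by positivity
      field_simp
    · intro s hs
      simp only [Complex.I_im, Complex.I_re, sub_zero]
      rw [div_le_div_iff₀ (by positivity) (by positivity)]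
      nlinarith [hs.1, hs.2]

end

end Pool.Agent.FS
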