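import Pool.Agent.helper52.FS.SpecP

/-!
# MP_07c750, project FS, row STF (helper23)

Windowed Plancherel.
-/

open MeasureTheory Set

set_option autoImplicit false

namespace Pool.Agent.FS

noncomputable section

theorem STF_ee_cont : Continuous ee := by
  unfold ee; fun_prop

theorem STF_ee_norm (s : ℝ) : ‖ee s‖ = 1 := by
  unfold ee; exact Complex.norm_exp_ofReal_mul_I s

theorem STF_ee_add (s t : ℝ) : ee (s + t) = ee s * ee t := by
  unfold ee
  rw [← Complex.exp_add]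
  congr 1
  push_cast; ring

/-- the inner integral -/
def STF_J (c x0 : ℝ) (G : ℝ → ℂ) (x η : ℝ) : ℂ := ∫ s in Icc (-(c / 2)) (c / 2), G (x0 + x - s) * ee (η * s)

theorem STF_qm (c x0 η : ℝ) (G : ℝ → ℂ) (x : ℝ) : qm c x0 η G x = (rho x : ℂ) * STF_J c x0 G x η := rfl

theorem STF_J_meas (c x0 : ℝ) (G : ℝ → ℂ) (hG : Continuous G) : StronglyMeasurable (fun p : ℝ × ℝ => STF_J c x0 G p.1 p.2) := by
  have h1 : Continuous (Function.uncurry fun (p : ℝ × ℝ) (s : ℝ) => G (x0 + p.1 - s) * ee (p.2 * s)) := by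
    have := STF_ee_cont
    unfold Function.uncurry
    fun_prop
  exact StronglyMeasurable.integral_prod_right (ν := volume.restrict (Icc (-(c / 2)) (c / 2))) h1.stronglyMeasurable

theorem STF_J_bd (c x0 M : ℝ) (G : ℝ → ℂ) (hc : 0 < c) (hM : ∀ x, ‖G x‖ ≤ M) (x η : ℝ) : ‖STF_J c x0 G x η‖ ≤ M * c := by
  have h1 := norm_setIntegral_le_of_norm_le_const (μ := volume) (s := Icc (-(c / 2)) (c / 2)) (f := fun s : ℝ => G (x0 + x - s) * ee (η * s)) (C := M)
    (by simp) (by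
      intro s _
      rw [norm_mul, STF_ee_norm, mul_one]
      exact hM _)
  rw [Real.volume_real_Icc_of_le (by linarith)] at h1
  have h2 : c / 2 - -(c / 2) = c := by ring
  rw [h2] at h1
  exact h1

theorem STF_J_pl (hPLR : PLR_stmt) (c x0 M : ℝ) (G : ℝ → ℂ) (hG : Continuous G) (hM : ∀ x, ‖G x‖ ≤ M) (x : ℝ) :
    Integrable (fun η : ℝ => ‖STF_J c x0 G x η‖ ^ 2) ∧ ∫ η, ‖STF_J c x0 G x η‖ ^ 2 = 2 * Real.pi * ∫ s in Icc (-(c / 2)) (c / 2), ‖G (x0 + x - s)‖ ^ 2 := by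
  have hM0 : 0 ≤ M := (norm_nonneg (G 0)).trans (hM 0)
  have hcG : Continuous fun s : ℝ => G (x0 + x - s) := by fun_prop
  have h1 := hPLR (indicator (Icc (-(c / 2)) (c / 2)) fun s => G (x0 + x - s)) M
    (by
      rw [integrable_indicator_iff measurableSet_Icc]
      exact hcG.integrableOn_Icc)
    (by
      intro s
      rw [norm_indicator_eq_indicator_norm]
      exact indicator_le' (fun s _ => hM _) (fun s _ => hM0) s)
  have h2 : ∀ η : ℝ, ∫ v, ee (η * v) * indicator (Icc (-(c / 2)) (c / 2)) (fun s => G (x0 + x - s)) v = STF_J c x0 G x η := by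
    intro η
    unfold STF_J
    rw [← integral_indicator measurableSet_Icc]
    congr 1
    funext v
    by_cases hv : v ∈ Icc (-(c / 2)) (c / 2)
    · rw [indicator_of_mem hv, indicator_of_mem hv, mul_comm]
    · rw [indicator_of_notMem hv, indicator_of_notMem hv, mul_zero]
  simp only [h2] at h1
  refine ⟨h1.1, h1.2.trans ?_⟩
  congr 1
  rw [← integral_indicator measurableSet_Icc]
  congr 1
  funext v
  by_cases hv : v ∈ Icc (-(c / 2)) (c / 2)
  · rw [indicator_of_mem hv, indicator_of_mem hv]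
  · rw [indicator_of_notMem hv, indicator_of_notMem hv, norm_zero]
    norm_num

/-! ## The kernel -/

def STF_a (t : ℝ) : ℝ := indicator (Ioi (0 : ℝ)) (fun t => Real.exp (-t) * rho t) t

def STF_b (c : ℝ) (s : ℝ) : ℝ := indicator (Icc (-(c / 2)) (c / 2)) (fun _ => (1 : ℝ)) s

def STF_k (c v : ℝ) : ℝ := ∫ t, STF_a t * STF_b c (v - t)

theorem STF_a_int (hR : RHO_stmt) : Integrable STF_a := by
  have h1 : IntegrableOn (fun t : ℝ => Real.exp (-t) * rho t) (Ioi 0) := by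
    have h2 : IntegrableOn rho (Ioi 0) := hR.ig.integrableOn
    refine Integrable.mono h2 ((by have := hR.ct; fun_prop : Continuous fun t : ℝ => Real.exp (-t) * rho t).aestronglyMeasurable) ?_
    refine (ae_restrict_iff' measurableSet_Ioi).2 (Filter.Eventually.of_forall fun t ht => ?_)
    rw [norm_mul, Real.norm_eq_abs, abs_of_pos (Real.exp_pos _)]
    have h3 : Real.exp (-t) ≤ 1 := Real.exp_le_one_iff.2 (by linarith [mem_Ioi.1 ht])
    calc Real.exp (-t) * ‖rho t‖ ≤ 1 * ‖rho t‖ := mul_le_mul_of_nonneg_right h3 (norm_nonneg _)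
      _ = _ := one_mul _
  exact (integrable_indicator_iff measurableSet_Ioi).2 h1

theorem STF_a_nn (hR : RHO_stmt) (t : ℝ) : 0 ≤ STF_a t :=
  indicator_nonneg (fun t _ => mul_nonneg (Real.exp_pos _).le (hR.nn t)) t

theorem STF_a_le (hR : RHO_stmt) : ∫ t, STF_a t ≤ 1 := by
  have h0 : ∫ t, STF_a t = ∫ t in Ioi (0 : ℝ), Real.exp (-t) * rho t := integral_indicator measurableSet_Ioi
  rw [h0, ← integral_exp_neg_Ioi_zero]
  refine setIntegral_mono_on ((integrable_indicator_iff measurableSet_Ioi).1 (STF_a_int hR)) (integrableOn_exp_neg_Ioi 0) measurableSet_Ioi ?_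
  intro t _
  calc Real.exp (-t) * rho t ≤ Real.exp (-t) * 1 := mul_le_mul_of_nonneg_left (hR.le t) (Real.exp_pos _).le
    _ = _ := mul_one _

theorem STF_b_int (c : ℝ) : Integrable (STF_b c) := by
  refine (integrable_indicator_iff measurableSet_Icc).2 ?_
  simp

theorem STF_b_nn (c s : ℝ) : 0 ≤ STF_b c s := indicator_nonneg (fun _ _ => zero_le_one) s

theorem STF_b_le (c s : ℝ) : STF_b c s ≤ 1 := indicator_le' (fun _ _ => le_rfl) (fun _ _ => zero_le_one) s

theorem STF_conv (hR : RHO_stmt) (c : ℝ) : Integrable (fun p : ℝ × ℝ => STF_a p.2 * STF_b c (p.1 - p.2)) (volume.prod volume) :=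
  (STF_a_int hR).convolution_integrand (ContinuousLinearMap.mul ℝ ℝ) (STF_b_int c)

theorem STF_k_int (hR : RHO_stmt) (c : ℝ) : Integrable (STF_k c) := (STF_conv hR c).integral_prod_left

theorem STF_sec (hR : RHO_stmt) (c v : ℝ) : Integrable (fun t : ℝ => STF_a t * STF_b c (v - t)) := by
  have hm : Measurable (fun t : ℝ => STF_b c (v - t)) := by
    have h1 : Measurable (STF_b c) := measurable_const.indicator measurableSet_Icc
    exact h1.comp (measurable_const.sub measurable_id)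
  refine Integrable.mono (STF_a_int hR) ((STF_a_int hR).aestronglyMeasurable.mul hm.aestronglyMeasurable) (Filter.Eventually.of_forall fun t => ?_)
  rw [norm_mul, Real.norm_eq_abs, Real.norm_eq_abs, abs_of_nonneg (STF_b_nn c _)]
  exact mul_le_of_le_one_right (abs_nonneg _) (STF_b_le c _)

theorem STF_k_nn (hR : RHO_stmt) (c v : ℝ) : 0 ≤ STF_k c v := integral_nonneg fun t => mul_nonneg (STF_a_nn hR t) (STF_b_nn c _)

theorem STF_k_le (hR : RHO_stmt) (c v : ℝ) : STF_k c v ≤ 1 := by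
  refine le_trans (integral_mono (STF_sec hR c v) (STF_a_int hR) fun t => ?_) (STF_a_le hR)
  exact mul_le_of_le_one_right (STF_a_nn hR t) (STF_b_le c _)

theorem STF_k_lo (hR : RHO_stmt) (c v : ℝ) (hc : 0 < c) (hc1 : c ≤ 1) (hv : 1 / 2 ≤ v) (hv2 : v ≤ 5 / 2) : c * (Real.exp (-3) / 4) ≤ STF_k c v := by
  have h1 : ∫ t, indicator (Ioo (v - c / 2) (v + c / 2)) (fun _ => Real.exp (-3) / 4) t ≤ STF_k c v := by
    refine integral_mono ((integrable_indicator_iff measurableSet_Ioo).2 (by simp)) (STF_sec hR c v) fun t => ?_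
    by_cases ht : t ∈ Ioo (v - c / 2) (v + c / 2)
    · rw [indicator_of_mem ht]
      have h2 : t ∈ Ioi (0 : ℝ) := mem_Ioi.2 (by linarith [ht.1])
      have h3 : v - t ∈ Icc (-(c / 2)) (c / 2) := ⟨by linarith [ht.2], by linarith [ht.1]⟩
      have h4 : STF_a t = Real.exp (-t) * rho t := indicator_of_mem h2 _
      have h5 : STF_b c (v - t) = 1 := indicator_of_mem h3 _
      show Real.exp (-3) / 4 ≤ STF_a t * STF_b c (v - t)
      rw [h4, h5, mul_one]
      have h6 : Real.exp (-3) ≤ Real.exp (-t) := Real.exp_le_exp.2 (by linarith [ht.2])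
      have h7 := hR.lo t (by rw [abs_le]; constructor <;> linarith [ht.2, mem_Ioi.1 h2])
      calc Real.exp (-3) / 4 = Real.exp (-3) * (1 / 4) := by ring
        _ ≤ Real.exp (-t) * rho t := mul_le_mul h6 h7 (by norm_num) (Real.exp_pos _).le
    · rw [indicator_of_notMem ht]
      exact mul_nonneg (STF_a_nn hR t) (STF_b_nn c _)
  refine le_trans (le_of_eq ?_) h1
  rw [integral_indicator measurableSet_Ioo, setIntegral_const, Real.volume_real_Ioo_of_le (by linarith), smul_eq_mul]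
  ring

theorem STF_V (hR : RHO_stmt) (c x0 η M : ℝ) (G : ℝ → ℂ) (hG : Continuous G) (hM : ∀ x, ‖G x‖ ≤ M) :
    ∫ t in Ioi (0 : ℝ), (Real.exp (-t) : ℂ) * ee (η * t) * qm c x0 η G (-t) = ∫ v, ee (η * v) * (G (x0 - v) * (STF_k c v : ℂ)) := by
  obtain ⟨F, hF⟩ : ∃ F : ℝ → ℂ, F = fun v => ee (η * v) * G (x0 - v) := ⟨_, rfl⟩
  have hFc : Continuous F := by
    have := STF_ee_cont
    rw [hF]
    fun_prop
  have hFb : ∀ v, ‖F v‖ ≤ M := by
    intro v
    rw [hF]
    simp only [norm_mul, STF_ee_norm, one_mul]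
    exact hM _
  have hint : Integrable (Function.uncurry fun v t : ℝ => F v * ((STF_a t * STF_b c (v - t) : ℝ) : ℂ)) (volume.prod volume) := by
    have h1 := (STF_conv hR c).ofReal (𝕜 := ℂ)
    have h2 : AEStronglyMeasurable (fun p : ℝ × ℝ => F p.1) (volume.prod volume) := (hFc.comp continuous_fst).aestronglyMeasurable
    exact h1.bdd_mul h2 (Filter.Eventually.of_forall fun p => hFb p.1)
  have hsw := integral_integral_swap hint
  have hL : ∫ v, ∫ t, F v * ((STF_a t * STF_b c (v - t) : ℝ) : ℂ) = ∫ v, ee (η * v) * (G (x0 - v) * (STF_k c v : ℂ)) := by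
    congr 1
    funext v
    rw [integral_const_mul, integral_complex_ofReal, hF]
    unfold STF_k
    ring
  have hRt : ∫ t, ∫ v, F v * ((STF_a t * STF_b c (v - t) : ℝ) : ℂ) = ∫ t in Ioi (0 : ℝ), (Real.exp (-t) : ℂ) * ee (η * t) * qm c x0 η G (-t) := by
    rw [← integral_indicator measurableSet_Ioi]
    congr 1
    funext t
    have h3 : ∫ v, F v * ((STF_a t * STF_b c (v - t) : ℝ) : ℂ) = ∫ s, F (t + s) * ((STF_a t * STF_b c s : ℝ) : ℂ) := by
      rw [← integral_sub_right_eq_self (fun s => F (t + s) * ((STF_a t * STF_b c s : ℝ) : ℂ)) t]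
      congr 1
      funext v
      rw [add_sub_cancel]
    rw [h3]
    by_cases ht : t ∈ Ioi (0 : ℝ)
    · rw [indicator_of_mem ht]
      have h4 : STF_a t = Real.exp (-t) * rho t := indicator_of_mem ht _
      rw [STF_qm, hR.ev t]
      unfold STF_J
      rw [← integral_indicator measurableSet_Icc, ← integral_const_mul, ← integral_const_mul]
      congr 1
      funext s
      by_cases hs : s ∈ Icc (-(c / 2)) (c / 2)
      · rw [indicator_of_mem hs]
        have h5 : STF_b c s = 1 := indicator_of_mem hs _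
        rw [h4, h5, hF]
        simp only [mul_one]
        have h6 : η * (t + s) = η * t + η * s := by ring
        have h7 : x0 - (t + s) = x0 + -t - s := by ring
        rw [h6, h7, STF_ee_add]
        push_cast
        ring
      · rw [indicator_of_notMem hs]
        have h5 : STF_b c s = 0 := indicator_of_notMem hs _
        rw [h5]
        simp
    · rw [indicator_of_notMem ht]
      have h4 : STF_a t = 0 := indicator_of_notMem ht _
      rw [h4]
      simp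
  rw [← hRt, ← hsw, hL]

/-! ## Cauchy-Schwarz -/

theorem STF_cs1 (hR : RHO_stmt) (J : ℝ → ℝ) (K : ℝ) (hm : AEStronglyMeasurable J volume) (h0 : ∀ x, 0 ≤ J x) (hb : ∀ x, J x ≤ K) :
    Integrable (fun x => rho x * J x) ∧ Integrable (fun x => rho x * J x ^ 2) ∧ (∫ x, rho x * J x) ^ 2 ≤ 16 * ∫ x, rho x * J x ^ 2 := by
  have hn : ∀ x, ‖J x‖ ≤ K := fun x => by rw [Real.norm_eq_abs, abs_of_nonneg (h0 x)]; exact hb x
  have hi1 : Integrable (fun x => rho x * J x) := by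
    have h1 := hR.ig.bdd_mul hm (Filter.Eventually.of_forall hn)
    refine h1.congr (Filter.Eventually.of_forall fun x => ?_)
    show J x * rho x = rho x * J x
    ring
  have hi2 : Integrable (fun x => rho x * J x ^ 2) := by
    have h1 := hi1.bdd_mul hm (Filter.Eventually.of_forall hn)
    refine h1.congr (Filter.Eventually.of_forall fun x => ?_)
    show J x * (rho x * J x) = rho x * J x ^ 2
    ring
  refine ⟨hi1, hi2, ?_⟩
  set A := ∫ x, rho x * J x with hA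
  have h1 : 0 ≤ ∫ x, rho x * (J x - A / 16) ^ 2 := integral_nonneg fun x => mul_nonneg (hR.nn x) (sq_nonneg _)
  have h2 : ∫ x, rho x * (J x - A / 16) ^ 2 = (∫ x, rho x * J x ^ 2) - (A / 8) * A + (A / 16) ^ 2 * ∫ x, rho x := by
    have h3 : ∀ x, rho x * (J x - A / 16) ^ 2 = (rho x * J x ^ 2 - (A / 8) * (rho x * J x)) + (A / 16) ^ 2 * rho x := fun x => by ring
    simp only [h3]
    have hs : Integrable (fun x => rho x * J x ^ 2 - (A / 8) * (rho x * J x)) := hi2.sub (hi1.const_mul _)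
    rw [integral_add hs (hR.ig.const_mul _), integral_sub hi2 (hi1.const_mul _), integral_const_mul, integral_const_mul, ← hA]
  have h4 : (A / 16) ^ 2 * ∫ x, rho x ≤ (A / 16) ^ 2 * 16 := mul_le_mul_of_nonneg_left hR.im (sq_nonneg _)
  nlinarith

theorem STF_cs2 (c : ℝ) (hc : 0 < c) (J : ℝ → ℝ) (K : ℝ) (hm : AEStronglyMeasurable J volume) (h0 : ∀ x, 0 ≤ J x) (hb : ∀ x, J x ≤ K) :
    IntegrableOn J (Icc (-(c / 2)) (c / 2)) ∧ IntegrableOn (fun x => J x ^ 2) (Icc (-(c / 2)) (c / 2)) ∧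
      (∫ x in Icc (-(c / 2)) (c / 2), J x) ^ 2 ≤ c * ∫ x in Icc (-(c / 2)) (c / 2), J x ^ 2 := by
  have hn : ∀ x, ‖J x‖ ≤ K := fun x => by rw [Real.norm_eq_abs, abs_of_nonneg (h0 x)]; exact hb x
  have hfin : IsFiniteMeasure (volume.restrict (Icc (-(c / 2)) (c / 2))) := ⟨by simp⟩
  have hi1 : IntegrableOn J (Icc (-(c / 2)) (c / 2)) := by
    refine Integrable.of_bound hm.restrict K (Filter.Eventually.of_forall hn)
  have hi2 : IntegrableOn (fun x => J x ^ 2) (Icc (-(c / 2)) (c / 2)) := by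
    have h1 := hi1.bdd_mul hm.restrict (Filter.Eventually.of_forall hn)
    refine h1.congr (Filter.Eventually.of_forall fun x => ?_)
    show J x * J x = J x ^ 2
    ring
  refine ⟨hi1, hi2, ?_⟩
  set A := ∫ x in Icc (-(c / 2)) (c / 2), J x with hA
  have h1 : 0 ≤ ∫ x in Icc (-(c / 2)) (c / 2), (J x - A / c) ^ 2 := integral_nonneg fun x => sq_nonneg _
  have h2 : ∫ x in Icc (-(c / 2)) (c / 2), (J x - A / c) ^ 2 = (∫ x in Icc (-(c / 2)) (c / 2), J x ^ 2) - (2 * A / c) * A + (A / c) ^ 2 * c := by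
    have h3 : ∀ x, (J x - A / c) ^ 2 = (J x ^ 2 - (2 * A / c) * J x) + (A / c) ^ 2 := fun x => by ring
    simp only [h3]
    have hs : IntegrableOn (fun x => J x ^ 2 - (2 * A / c) * J x) (Icc (-(c / 2)) (c / 2)) := hi2.sub (hi1.const_mul _)
    rw [integral_add hs (integrable_const _), integral_sub hi2 (hi1.const_mul _), integral_const_mul, setIntegral_const, ← hA,
      Real.volume_real_Icc_of_le (by linarith), smul_eq_mul]
    ring
  rw [h2] at h1
  have h5 : (2 * A / c) * A = 2 * (A ^ 2 / c) := by ring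
  have h6 : (A / c) ^ 2 * c = A ^ 2 / c := by
    field_simp
  rw [h5, h6] at h1
  have h7 : A ^ 2 / c ≤ ∫ x in Icc (-(c / 2)) (c / 2), J x ^ 2 := by linarith
  rw [div_le_iff₀ hc] at h7
  linarith

/-! ## Tonelli -/

attribute [local irreducible] STF_J

theorem STF_e_meas (c x0 : ℝ) (G : ℝ → ℂ) (hG : Continuous G) : Measurable (fun p : ℝ × ℝ => ‖STF_J c x0 G p.1 p.2‖ ^ 2) :=
  (STF_J_meas c x0 G hG).measurable.norm.pow_const 2

theorem STF_e_meas' (c x0 : ℝ) (G : ℝ → ℂ) (hG : Continuous G) : Measurable (fun p : ℝ × ℝ => ‖STF_J c x0 G p.2 p.1‖ ^ 2) :=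
  (STF_e_meas c x0 G hG).comp measurable_swap

theorem STF_J_lint (hPLR : PLR_stmt) (c x0 M : ℝ) (G : ℝ → ℂ) (hG : Continuous G) (hM : ∀ x, ‖G x‖ ≤ M) (x : ℝ) :
    ∫⁻ η, ENNReal.ofReal (‖STF_J c x0 G x η‖ ^ 2) = ENNReal.ofReal (2 * Real.pi * ∫ s in Icc (-(c / 2)) (c / 2), ‖G (x0 + x - s)‖ ^ 2) := by
  obtain ⟨h1, h2⟩ := STF_J_pl hPLR c x0 M G hG hM x
  rw [← h2, ofReal_integral_eq_lintegral_ofReal h1 (Filter.Eventually.of_forall fun η => by positivity)]

theorem STF_in (c x0 x : ℝ) (G : ℝ → ℂ) (hG : Continuous G) (hx : x ∈ Icc (-(c / 2)) (c / 2)) :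
    ∫ s in Icc (-(c / 2)) (c / 2), ‖G (x0 + x - s)‖ ^ 2 ≤ ∫ u in Icc (-c) c, ‖G (x0 + u)‖ ^ 2 := by
  have hh : Continuous (fun u : ℝ => ‖G (x0 + u)‖ ^ 2) := by fun_prop
  rw [← integral_indicator measurableSet_Icc, ← integral_indicator measurableSet_Icc]
  have h1 : ∫ s, indicator (Icc (-(c / 2)) (c / 2)) (fun s => ‖G (x0 + x - s)‖ ^ 2) s =
      ∫ u, indicator (Icc (x - c / 2) (x + c / 2)) (fun u => ‖G (x0 + u)‖ ^ 2) u := by
    rw [← integral_sub_left_eq_self (fun u => indicator (Icc (x - c / 2) (x + c / 2)) (fun u => ‖G (x0 + u)‖ ^ 2) u) volume x]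
    congr 1
    funext s
    by_cases hs : s ∈ Icc (-(c / 2)) (c / 2)
    · have h2 : x - s ∈ Icc (x - c / 2) (x + c / 2) := ⟨by linarith [hs.2], by linarith [hs.1]⟩
      rw [indicator_of_mem hs, indicator_of_mem h2]
      rw [add_sub_assoc]
    · have h2 : x - s ∉ Icc (x - c / 2) (x + c / 2) := fun h => hs ⟨by linarith [h.2], by linarith [h.1]⟩
      rw [indicator_of_notMem hs, indicator_of_notMem h2]
  rw [h1]
  refine integral_mono ((integrable_indicator_iff measurableSet_Icc).2 hh.integrableOn_Icc) ((integrable_indicator_iff measurableSet_Icc).2 hh.integrableOn_Icc) fun u => ?_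
  refine indicator_le_indicator_of_subset (Icc_subset_Icc (by linarith [hx.1]) (by linarith [hx.2])) (fun v => by positivity) u

theorem STF_T2 (hPLR : PLR_stmt) (c x0 M : ℝ) (G : ℝ → ℂ) (hc : 0 < c) (hc1 : c ≤ 1) (hG : Continuous G) (hM : ∀ x, ‖G x‖ ≤ M) :
    ∫⁻ η, ENNReal.ofReal (∫ x in Icc (-(c / 2)) (c / 2), ‖STF_J c x0 G x η‖ ^ 2) ≤ ENNReal.ofReal (2 * Real.pi * ∫ u in Icc (-c) c, ‖G (x0 + u)‖ ^ 2) := by
  have hsec : ∀ η : ℝ, AEStronglyMeasurable (fun x => ‖STF_J c x0 G x η‖) volume := fun η =>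
    ((STF_J_meas c x0 G hG).measurable.norm.comp (measurable_id.prodMk measurable_const)).aestronglyMeasurable
  have h1 : ∀ η : ℝ, ENNReal.ofReal (∫ x in Icc (-(c / 2)) (c / 2), ‖STF_J c x0 G x η‖ ^ 2) = ∫⁻ x in Icc (-(c / 2)) (c / 2), ENNReal.ofReal (‖STF_J c x0 G x η‖ ^ 2) := by
    intro η
    have h2 := (STF_cs2 c hc (fun x => ‖STF_J c x0 G x η‖) (M * c) (hsec η) (fun x => norm_nonneg _) (fun x => STF_J_bd c x0 M G hc hM x η)).2.1
    exact ofReal_integral_eq_lintegral_ofReal h2 (Filter.Eventually.of_forall fun x => by positivity)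
  simp only [h1]
  have hmeas : Measurable (fun p : ℝ × ℝ => ENNReal.ofReal (‖STF_J c x0 G p.2 p.1‖ ^ 2)) := (STF_e_meas' c x0 G hG).ennreal_ofReal
  have hsw := lintegral_lintegral_swap (μ := volume) (ν := volume.restrict (Icc (-(c / 2)) (c / 2))) (f := fun η x : ℝ => ENNReal.ofReal (‖STF_J c x0 G x η‖ ^ 2)) hmeas.aemeasurable
  rw [hsw]
  calc ∫⁻ x in Icc (-(c / 2)) (c / 2), ∫⁻ η, ENNReal.ofReal (‖STF_J c x0 G x η‖ ^ 2)
      ≤ ∫⁻ _x in Icc (-(c / 2)) (c / 2), ENNReal.ofReal (2 * Real.pi * ∫ u in Icc (-c) c, ‖G (x0 + u)‖ ^ 2) := by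
        refine setLIntegral_mono measurable_const fun x hx => ?_
        rw [STF_J_lint hPLR c x0 M G hG hM x]
        exact ENNReal.ofReal_le_ofReal (mul_le_mul_of_nonneg_left (STF_in c x0 x G hG hx) (by positivity))
    _ = ENNReal.ofReal (2 * Real.pi * ∫ u in Icc (-c) c, ‖G (x0 + u)‖ ^ 2) * volume (Icc (-(c / 2)) (c / 2)) := by
        rw [setLIntegral_const]
    _ ≤ ENNReal.ofReal (2 * Real.pi * ∫ u in Icc (-c) c, ‖G (x0 + u)‖ ^ 2) * 1 := by
        refine mul_le_mul_right ?_ _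
        rw [Real.volume_Icc]
        have h3 : c / 2 - -(c / 2) = c := by ring
        rw [h3]
        calc ENNReal.ofReal c ≤ ENNReal.ofReal 1 := ENNReal.ofReal_le_ofReal hc1
          _ = 1 := ENNReal.ofReal_one
    _ = _ := mul_one _

theorem STF_E_int (x0 M : ℝ) (G : ℝ → ℂ) (hG : Continuous G) (hM : ∀ x, ‖G x‖ ≤ M) : Integrable (fun u : ℝ => ‖G (x0 + u)‖ ^ 2 / (1 + u ^ 2)) := by
  have h1 : Continuous (fun u : ℝ => ‖G (x0 + u)‖ ^ 2) := by fun_prop
  have hM0 : 0 ≤ M := (norm_nonneg (G 0)).trans (hM 0)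
  have h2 := integrable_inv_one_add_sq.bdd_mul (c := M ^ 2) h1.aestronglyMeasurable (Filter.Eventually.of_forall fun u => by
    rw [Real.norm_eq_abs, abs_of_nonneg (by positivity)]
    exact pow_le_pow_left₀ (norm_nonneg _) (hM _) 2)
  exact h2

theorem STF_T1 (hR : RHO_stmt) (hPLR : PLR_stmt) (c x0 M : ℝ) (G : ℝ → ℂ) (hc : 0 < c) (hc1 : c ≤ 1) (hG : Continuous G) (hM : ∀ x, ‖G x‖ ≤ M) :
    ∫⁻ η, ENNReal.ofReal (∫ x, rho x * ‖STF_J c x0 G x η‖ ^ 2) ≤ ENNReal.ofReal (2 * Real.pi * (10 * ∫ u, ‖G (x0 + u)‖ ^ 2 / (1 + u ^ 2))) := by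
  have hsec : ∀ η : ℝ, AEStronglyMeasurable (fun x => ‖STF_J c x0 G x η‖) volume := fun η =>
    ((STF_J_meas c x0 G hG).measurable.norm.comp (measurable_id.prodMk measurable_const)).aestronglyMeasurable
  have hrm : Measurable rho := hR.ct.measurable
  have h1 : ∀ η : ℝ, ENNReal.ofReal (∫ x, rho x * ‖STF_J c x0 G x η‖ ^ 2) = ∫⁻ x, ENNReal.ofReal (rho x) * ENNReal.ofReal (‖STF_J c x0 G x η‖ ^ 2) := by
    intro η
    have h2 := (STF_cs1 hR (fun x => ‖STF_J c x0 G x η‖) (M * c) (hsec η) (fun x => norm_nonneg _) (fun x => STF_J_bd c x0 M G hc hM x η)).2.1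
    rw [ofReal_integral_eq_lintegral_ofReal h2 (Filter.Eventually.of_forall fun x => mul_nonneg (hR.nn x) (by positivity))]
    refine lintegral_congr fun x => ?_
    exact ENNReal.ofReal_mul (hR.nn x)
  simp only [h1]
  have hmeas : Measurable (fun p : ℝ × ℝ => ENNReal.ofReal (rho p.2) * ENNReal.ofReal (‖STF_J c x0 G p.2 p.1‖ ^ 2)) :=
    (hrm.comp measurable_snd).ennreal_ofReal.mul (STF_e_meas' c x0 G hG).ennreal_ofReal
  have hsw := lintegral_lintegral_swap (μ := volume) (ν := volume) (f := fun η x : ℝ => ENNReal.ofReal (rho x) * ENNReal.ofReal (‖STF_J c x0 G x η‖ ^ 2)) hmeas.aemeasurable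
  rw [hsw]
  have h3 : ∀ x : ℝ, ∫⁻ η, ENNReal.ofReal (rho x) * ENNReal.ofReal (‖STF_J c x0 G x η‖ ^ 2) =
      ENNReal.ofReal (2 * Real.pi) * ∫⁻ s in Icc (-(c / 2)) (c / 2), ENNReal.ofReal (rho x) * ENNReal.ofReal (‖G (x0 + x - s)‖ ^ 2) := by
    intro x
    have hcc : Continuous (fun s : ℝ => ‖G (x0 + x - s)‖ ^ 2) := by fun_prop
    rw [lintegral_const_mul' _ _ ENNReal.ofReal_ne_top, STF_J_lint hPLR c x0 M G hG hM x, ENNReal.ofReal_mul (by positivity),
      ofReal_integral_eq_lintegral_ofReal hcc.integrableOn_Icc (Filter.Eventually.of_forall fun s => by positivity),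
      lintegral_const_mul' _ _ ENNReal.ofReal_ne_top, mul_left_comm]
  simp only [h3]
  have hm4 : Measurable (fun p : ℝ × ℝ => ENNReal.ofReal (rho p.1) * ENNReal.ofReal (‖G (x0 + p.1 - p.2)‖ ^ 2)) := by
    have h4 : Continuous (fun p : ℝ × ℝ => ‖G (x0 + p.1 - p.2)‖ ^ 2) := by fun_prop
    exact (hrm.comp measurable_fst).ennreal_ofReal.mul h4.measurable.ennreal_ofReal
  have hsw2 := lintegral_lintegral_swap (μ := volume) (ν := volume.restrict (Icc (-(c / 2)) (c / 2))) (f := fun x s : ℝ => ENNReal.ofReal (rho x) * ENNReal.ofReal (‖G (x0 + x - s)‖ ^ 2)) hm4.aemeasurable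
  rw [lintegral_const_mul' _ _ ENNReal.ofReal_ne_top, hsw2, ENNReal.ofReal_mul (p := 2 * Real.pi) (by positivity)]
  refine mul_le_mul_right ?_ _
  have hE := STF_E_int x0 M G hG hM
  have hW : ∫⁻ u, ENNReal.ofReal (10 * (‖G (x0 + u)‖ ^ 2 / (1 + u ^ 2))) = ENNReal.ofReal (10 * ∫ u, ‖G (x0 + u)‖ ^ 2 / (1 + u ^ 2)) := by
    rw [← integral_const_mul, ofReal_integral_eq_lintegral_ofReal (hE.const_mul 10) (Filter.Eventually.of_forall fun u => by positivity)]
  calc ∫⁻ s in Icc (-(c / 2)) (c / 2), ∫⁻ x, ENNReal.ofReal (rho x) * ENNReal.ofReal (‖G (x0 + x - s)‖ ^ 2)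
      ≤ ∫⁻ _s in Icc (-(c / 2)) (c / 2), ENNReal.ofReal (10 * ∫ u, ‖G (x0 + u)‖ ^ 2 / (1 + u ^ 2)) := by
        refine setLIntegral_mono measurable_const fun s hs => ?_
        rw [← hW, ← lintegral_add_right_eq_self (fun x => ENNReal.ofReal (rho x) * ENNReal.ofReal (‖G (x0 + x - s)‖ ^ 2)) s]
        refine lintegral_mono fun u => ?_
        have h5 : x0 + (u + s) - s = x0 + u := by ring
        show ENNReal.ofReal (rho (u + s)) * ENNReal.ofReal (‖G (x0 + (u + s) - s)‖ ^ 2) ≤ ENNReal.ofReal (10 * (‖G (x0 + u)‖ ^ 2 / (1 + u ^ 2)))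
        rw [h5, ← ENNReal.ofReal_mul (hR.nn _)]
        refine ENNReal.ofReal_le_ofReal ?_
        have h6 := hR.dc (u + s)
        have h7 : 5 / (1 + (u + s) ^ 2) ≤ 10 / (1 + u ^ 2) := by
          rw [div_le_div_iff₀ (by positivity) (by positivity)]
          have h8 : s ^ 2 ≤ 1 / 4 := by
            have h9 : |s| ≤ 1 / 2 := by rw [abs_le]; constructor <;> linarith [hs.1, hs.2]
            have h10 := pow_le_pow_left₀ (abs_nonneg s) h9 2
            rw [sq_abs] at h10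
            linarith
          nlinarith [sq_nonneg (u + 2 * s)]
        calc rho (u + s) * ‖G (x0 + u)‖ ^ 2 ≤ 10 / (1 + u ^ 2) * ‖G (x0 + u)‖ ^ 2 := mul_le_mul_of_nonneg_right (h6.trans h7) (by positivity)
          _ = 10 * (‖G (x0 + u)‖ ^ 2 / (1 + u ^ 2)) := by ring
    _ = ENNReal.ofReal (10 * ∫ u, ‖G (x0 + u)‖ ^ 2 / (1 + u ^ 2)) * volume (Icc (-(c / 2)) (c / 2)) := by
        rw [setLIntegral_const]
    _ ≤ ENNReal.ofReal (10 * ∫ u, ‖G (x0 + u)‖ ^ 2 / (1 + u ^ 2)) * 1 := by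
        refine mul_le_mul_right ?_ _
        rw [Real.volume_Icc]
        have h3 : c / 2 - -(c / 2) = c := by ring
        rw [h3]
        calc ENNReal.ofReal c ≤ ENNReal.ofReal 1 := ENNReal.ofReal_le_ofReal hc1
          _ = 1 := ENNReal.ofReal_one
    _ = _ := mul_one _

theorem STF_proof (hR : RHO_stmt) (hPLR : PLR_stmt) : STF_stmt := by
  intro c hc hc1
  obtain ⟨k0, hk0⟩ : ∃ k0 : ℝ, k0 = c * (Real.exp (-3) / 4) := ⟨_, rfl⟩
  have hk0p : 0 < k0 := by rw [hk0]; positivity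
  have hk1 : k0 ≤ 1 := by
    rw [hk0]
    have h1 : Real.exp (-3) ≤ 1 := Real.exp_le_one_iff.2 (by norm_num)
    calc c * (Real.exp (-3) / 4) ≤ 1 * (1 / 4) := mul_le_mul hc1 (by linarith) (by positivity) zero_le_one
      _ ≤ 1 := by norm_num
  refine ⟨320 / k0 ^ 2, ?_, ?_⟩
  · rw [le_div_iff₀ (by positivity)]
    nlinarith
  intro x0 δ B M G hδ hB hG hM hyp
  have hM0 : 0 ≤ M := (norm_nonneg (G 0)).trans (hM 0)
  obtain ⟨V, hV⟩ : ∃ V : ℝ → ℂ, V = fun η => ∫ v, ee (η * v) * (G (x0 - v) * (STF_k c v : ℂ)) := ⟨_, rfl⟩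
  obtain ⟨g, hg⟩ : ∃ g : ℝ → ℂ, g = fun v => G (x0 - v) * (STF_k c v : ℂ) := ⟨_, rfl⟩
  have hGc : Continuous (fun v : ℝ => G (x0 - v)) := by fun_prop
  have hgi : Integrable g := by
    rw [hg]
    exact ((STF_k_int hR c).ofReal (𝕜 := ℂ)).bdd_mul (c := M) hGc.aestronglyMeasurable (Filter.Eventually.of_forall fun v => hM _)
  have hgn : ∀ v, ‖g v‖ = ‖G (x0 - v)‖ * STF_k c v := by
    intro v
    rw [hg]
    simp only [norm_mul, Complex.norm_real, Real.norm_eq_abs, abs_of_nonneg (STF_k_nn hR c v)]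
  have hgb : ∀ v, ‖g v‖ ≤ M := by
    intro v
    rw [hgn]
    calc ‖G (x0 - v)‖ * STF_k c v ≤ M * 1 := mul_le_mul (hM _) (STF_k_le hR c v) (STF_k_nn hR c v) hM0
      _ = M := mul_one _
  obtain ⟨hVi, hVe⟩ := hPLR g M hgi hgb
  have hVg : ∀ η : ℝ, ∫ v, ee (η * v) * g v = V η := by
    intro η; rw [hV, hg]
  simp only [hVg] at hVi hVe
  have hg2 : Integrable (fun v => ‖g v‖ ^ 2) := by
    have h1 := hgi.norm.bdd_mul (c := M) hgi.norm.aestronglyMeasurable (Filter.Eventually.of_forall fun v => by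
      rw [Real.norm_eq_abs, abs_of_nonneg (norm_nonneg _)]; exact hgb v)
    refine h1.congr (Filter.Eventually.of_forall fun v => ?_)
    show ‖g v‖ * ‖g v‖ = ‖g v‖ ^ 2
    ring
  -- the lower bound
  have hlow : k0 ^ 2 * ∫ v in Icc (1 / 2 : ℝ) (5 / 2), ‖G (x0 - v)‖ ^ 2 ≤ ∫ v, ‖g v‖ ^ 2 := by
    have hcc : Continuous (fun v : ℝ => ‖G (x0 - v)‖ ^ 2) := by fun_prop
    rw [← integral_const_mul]
    refine le_trans (setIntegral_mono_on (hcc.integrableOn_Icc.const_mul _) hg2.integrableOn measurableSet_Icc fun v hv => ?_)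
      (setIntegral_le_integral hg2 (Filter.Eventually.of_forall fun v => by positivity))
    rw [hgn, mul_pow, mul_comm]
    refine mul_le_mul_of_nonneg_left ?_ (by positivity)
    exact pow_le_pow_left₀ hk0p.le (by rw [hk0]; exact STF_k_lo hR c v hc hc1 hv.1 hv.2) 2
  -- the upper bound
  have hsec : ∀ η : ℝ, AEStronglyMeasurable (fun x => ‖STF_J c x0 G x η‖) volume := fun η =>
    ((STF_J_meas c x0 G hG).measurable.norm.comp (measurable_id.prodMk measurable_const)).aestronglyMeasurable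
  have hpt : ∀ η : ℝ, ‖V η‖ ^ 2 ≤ 32 * δ ^ 2 * (∫ x, rho x * ‖STF_J c x0 G x η‖ ^ 2) + 2 * B ^ 2 * ∫ x in Icc (-(c / 2)) (c / 2), ‖STF_J c x0 G x η‖ ^ 2 := by
    intro η
    have h1 := hyp η
    rw [STF_V hR c x0 η M G hG hM] at h1
    have h2 : ∀ x, ‖qm c x0 η G x‖ = rho x * ‖STF_J c x0 G x η‖ := by
      intro x
      rw [STF_qm, norm_mul, Complex.norm_real, Real.norm_eq_abs, abs_of_nonneg (hR.nn x)]
    simp only [h2] at h1
    obtain ⟨-, -, h3⟩ := STF_cs1 hR (fun x => ‖STF_J c x0 G x η‖) (M * c) (hsec η) (fun x => norm_nonneg _) (fun x => STF_J_bd c x0 M G hc hM x η)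
    obtain ⟨h4, h4', h5⟩ := STF_cs2 c hc (fun x => ‖STF_J c x0 G x η‖) (M * c) (hsec η) (fun x => norm_nonneg _) (fun x => STF_J_bd c x0 M G hc hM x η)
    have h6 : ∫ x in Icc (-(c / 2)) (c / 2), rho x * ‖STF_J c x0 G x η‖ ≤ ∫ x in Icc (-(c / 2)) (c / 2), ‖STF_J c x0 G x η‖ := by
      refine setIntegral_mono_on (STF_cs1 hR (fun x => ‖STF_J c x0 G x η‖) (M * c) (hsec η) (fun x => norm_nonneg _) (fun x => STF_J_bd c x0 M G hc hM x η)).1.integrableOn h4 measurableSet_Icc fun x _ => ?_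
      exact mul_le_of_le_one_left (norm_nonneg _) (hR.le x)
    have h60 : 0 ≤ ∫ x in Icc (-(c / 2)) (c / 2), rho x * ‖STF_J c x0 G x η‖ := integral_nonneg fun x => mul_nonneg (hR.nn x) (norm_nonneg _)
    have h61 : 0 ≤ ∫ x, rho x * ‖STF_J c x0 G x η‖ := integral_nonneg fun x => mul_nonneg (hR.nn x) (norm_nonneg _)
    have h62 : 0 ≤ ∫ x in Icc (-(c / 2)) (c / 2), ‖STF_J c x0 G x η‖ ^ 2 := integral_nonneg fun x => by positivity
    set A1 := ∫ x, rho x * ‖STF_J c x0 G x η‖ with hA1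
    set A2 := ∫ x in Icc (-(c / 2)) (c / 2), rho x * ‖STF_J c x0 G x η‖ with hA2
    set A3 := ∫ x in Icc (-(c / 2)) (c / 2), ‖STF_J c x0 G x η‖ with hA3
    set T1 := ∫ x, rho x * ‖STF_J c x0 G x η‖ ^ 2 with hT1
    set T2 := ∫ x in Icc (-(c / 2)) (c / 2), ‖STF_J c x0 G x η‖ ^ 2 with hT2
    have h7 : ‖V η‖ ≤ δ * A1 + B * A2 := by rw [hV]; exact h1
    have h8 : ‖V η‖ ^ 2 ≤ (δ * A1 + B * A2) ^ 2 := pow_le_pow_left₀ (norm_nonneg _) h7 2
    have h9 : (δ * A1 + B * A2) ^ 2 ≤ 2 * δ ^ 2 * A1 ^ 2 + 2 * B ^ 2 * A2 ^ 2 := by nlinarith [sq_nonneg (δ * A1 - B * A2)]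
    have h10 : A2 ^ 2 ≤ T2 := by
      have h11 : A2 ^ 2 ≤ A3 ^ 2 := pow_le_pow_left₀ h60 h6 2
      have h12 : c * T2 ≤ 1 * T2 := mul_le_mul_of_nonneg_right hc1 h62
      linarith
    have h13 : 2 * δ ^ 2 * A1 ^ 2 ≤ 2 * δ ^ 2 * (16 * T1) := mul_le_mul_of_nonneg_left h3 (by positivity)
    have h14 : 2 * B ^ 2 * A2 ^ 2 ≤ 2 * B ^ 2 * T2 := mul_le_mul_of_nonneg_left h10 (by positivity)
    linarith
  have hT1m : Measurable (fun η : ℝ => ∫ x, rho x * ‖STF_J c x0 G x η‖ ^ 2) := by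
    have h1 : Measurable (Function.uncurry fun x η : ℝ => rho x * ‖STF_J c x0 G x η‖ ^ 2) :=
      (hR.ct.measurable.comp measurable_fst).mul (STF_e_meas c x0 G hG)
    exact (StronglyMeasurable.integral_prod_left (μ := volume) h1.stronglyMeasurable).measurable
  set E := ∫ u, ‖G (x0 + u)‖ ^ 2 / (1 + u ^ 2) with hE
  set D := ∫ u in Icc (-c) c, ‖G (x0 + u)‖ ^ 2 with hD
  have hE0 : 0 ≤ E := integral_nonneg fun u => by positivity
  have hD0 : 0 ≤ D := integral_nonneg fun u => by positivity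
  have hup : ∫ η, ‖V η‖ ^ 2 ≤ 32 * δ ^ 2 * (2 * Real.pi * (10 * E)) + 2 * B ^ 2 * (2 * Real.pi * D) := by
    have h0 : 0 ≤ 32 * δ ^ 2 * (2 * Real.pi * (10 * E)) + 2 * B ^ 2 * (2 * Real.pi * D) := by positivity
    rw [← ENNReal.ofReal_le_ofReal_iff h0, ofReal_integral_eq_lintegral_ofReal hVi (Filter.Eventually.of_forall fun η => by positivity)]
    calc ∫⁻ η, ENNReal.ofReal (‖V η‖ ^ 2)
        ≤ ∫⁻ η, (ENNReal.ofReal (32 * δ ^ 2) * ENNReal.ofReal (∫ x, rho x * ‖STF_J c x0 G x η‖ ^ 2) + ENNReal.ofReal (2 * B ^ 2) * ENNReal.ofReal (∫ x in Icc (-(c / 2)) (c / 2), ‖STF_J c x0 G x η‖ ^ 2)) := by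
          refine lintegral_mono fun η => ?_
          rw [← ENNReal.ofReal_mul (by positivity), ← ENNReal.ofReal_mul (by positivity), ← ENNReal.ofReal_add]
          · exact ENNReal.ofReal_le_ofReal (hpt η)
          · exact mul_nonneg (by positivity) (integral_nonneg fun x => mul_nonneg (hR.nn x) (by positivity))
          · exact mul_nonneg (by positivity) (integral_nonneg fun x => by positivity)
      _ = ENNReal.ofReal (32 * δ ^ 2) * (∫⁻ η, ENNReal.ofReal (∫ x, rho x * ‖STF_J c x0 G x η‖ ^ 2)) + ENNReal.ofReal (2 * B ^ 2) * ∫⁻ η, ENNReal.ofReal (∫ x in Icc (-(c / 2)) (c / 2), ‖STF_J c x0 G x η‖ ^ 2) := by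
          rw [lintegral_add_left (hT1m.ennreal_ofReal.const_mul _), lintegral_const_mul' _ _ ENNReal.ofReal_ne_top, lintegral_const_mul' _ _ ENNReal.ofReal_ne_top]
      _ ≤ ENNReal.ofReal (32 * δ ^ 2) * ENNReal.ofReal (2 * Real.pi * (10 * E)) + ENNReal.ofReal (2 * B ^ 2) * ENNReal.ofReal (2 * Real.pi * D) :=
          add_le_add (mul_le_mul_right (STF_T1 hR hPLR c x0 M G hc hc1 hG hM) _) (mul_le_mul_right (STF_T2 hPLR c x0 M G hc hc1 hG hM) _)
      _ = ENNReal.ofReal (32 * δ ^ 2 * (2 * Real.pi * (10 * E)) + 2 * B ^ 2 * (2 * Real.pi * D)) := by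
          have p1 : (0 : ℝ) ≤ 32 * δ ^ 2 := by positivity
          have p2 : (0 : ℝ) ≤ 2 * B ^ 2 := by positivity
          have p3 : (0 : ℝ) ≤ 32 * δ ^ 2 * (2 * Real.pi * (10 * E)) := by positivity
          have p4 : (0 : ℝ) ≤ 2 * B ^ 2 * (2 * Real.pi * D) := by positivity
          rw [← ENNReal.ofReal_mul p1, ← ENNReal.ofReal_mul p2, ← ENNReal.ofReal_add p3 p4]
  rw [hVe] at hup
  have hpi := Real.pi_pos
  have hfin : k0 ^ 2 * ∫ v in Icc (1 / 2 : ℝ) (5 / 2), ‖G (x0 - v)‖ ^ 2 ≤ 320 * (δ ^ 2 * E + B ^ 2 * D) := by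
    have h1 : 2 * Real.pi * (k0 ^ 2 * ∫ v in Icc (1 / 2 : ℝ) (5 / 2), ‖G (x0 - v)‖ ^ 2) ≤ 2 * Real.pi * (320 * δ ^ 2 * E + 2 * B ^ 2 * D) := by
      have h2 := mul_le_mul_of_nonneg_left hlow (by positivity : (0 : ℝ) ≤ 2 * Real.pi)
      refine h2.trans (hup.trans (le_of_eq ?_))
      ring
    have h3 := le_of_mul_le_mul_left h1 (by positivity)
    have h4 : 0 ≤ B ^ 2 * D := by positivity
    linarith
  rw [div_mul_eq_mul_div, le_div_iff₀ (by positivity)]
  linarith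

end

end Pool.Agent.FS
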